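import Pool.Agent.H275.UF.Sep

/-!
# The filter
-/

set_option autoImplicit false

open Set Filter Topology

namespace Pool.Agent.H275UF

/-- the nodes whose block is contained in `W` -/
def nodes (W : Set Pt) : Set (List ℕ) := {s | Blk s ⊆ W}

/-- the open set assigned to the dense open set `W` -/
def OW (W : Set Pt) : Set Pt := {x | ∃ n, x.v ∈ OO (nodes W) n [n]}

/-- the even part of the space -/
def U0 : Set Pt := {x | ∃ n d r, x.v = n :: (2 * d) :: r}

lemma DN_nodes {W : Set Pt} (h1 : IsOpen W) (h2 : Dense W) : DN (nodes W) where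
  up := fun _ _ hs hst => (Blk_mono hst).trans hs
  dense := by
    intro s
    obtain ⟨x, hxW, hxs⟩ := h2.exists_mem_open (isOpen_Blk s) (Blk_nonempty s)
    obtain ⟨n, hn⟩ := (isOpen_iff'.1 h1 x hxW).exists
    exact ⟨nO x.v x.l n, List.IsPrefix.trans hxs (prefix_nO _ _ _), hn.1⟩

lemma isOpen_OW {W : Set Pt} (hW : DN (nodes W)) : IsOpen (OW W) := by
  rw [isOpen_iff']
  rintro x ⟨n, hn⟩
  exact Eventually.of_forall fun k =>
    ⟨fun z hz => ⟨n, OO_up hW n _ _ _ hn ((prefix_nO _ _ _).trans hz)⟩,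
      fun z hz => ⟨n, OO_up hW n _ _ _ hn ((prefix_nS _ _ _).trans hz)⟩⟩

lemma OW_sub {W : Set Pt} (hW : DN (nodes W)) : OW W ⊆ W := by
  rintro x ⟨n, hn⟩
  exact (OO_sub hW n _ hn : Blk x.v ⊆ W) (List.prefix_rfl : x.v <+: x.v)

lemma closure_OW {W : Set Pt} (hW : DN (nodes W)) : closure (OW W) ⊆ W := by
  intro y hy
  by_contra hyW
  have hyN : y.v ∉ nodes W := fun h => hyW (h (List.prefix_rfl : y.v <+: y.v))
  obtain ⟨n, w', hw⟩ := List.exists_cons_of_ne_nil y.hv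
  obtain ⟨M, hM⟩ := eventually_atTop.1 (closed_main hW n [n] y hyN)
  obtain ⟨z, hzN, hzO⟩ := mem_closure_iff.1 hy (Nb y M) (isOpen_Nb y M) (self_mem_Nb y M)
  obtain ⟨n', hn'⟩ := hzO
  have hyz : y.v <+: z.v := by
    rcases hzN with rfl | ⟨k, _, hz | hz⟩
    · exact List.prefix_rfl
    · exact (prefix_nO _ _ _).trans hz
    · exact (prefix_nS _ _ _).trans hz
  have hnn : n' = n := by
    obtain ⟨d, r, hdr⟩ := OO_prefix hn'
    obtain ⟨u, hu⟩ := hyz
    rw [hw, hdr] at hu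
    simp only [List.cons_append, List.nil_append, List.cons.injEq] at hu
    exact hu.1.symm
  subst hnn
  rcases hzN with rfl | ⟨k, hk, hz⟩
  · exact hyN (OO_sub hW _ _ hn')
  · exact hM k hk z hz hn'

lemma isOpen_U0 : IsOpen U0 := by
  rw [isOpen_iff']
  rintro x ⟨n, d, r, hx⟩
  have key : ∀ z : Pt, x.v <+: z.v → z ∈ U0 := by
    rintro z ⟨u, hu⟩
    exact ⟨n, d, r ++ u, by rw [← hu, hx]; simp⟩
  exact Eventually.of_forall fun k =>
    ⟨fun z hz => key z ((prefix_nO _ _ _).trans hz), fun z hz => key z ((prefix_nS _ _ _).trans hz)⟩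

lemma OW_sub_U0 {W : Set Pt} : OW W ⊆ U0 := by
  rintro x ⟨n, hn⟩
  obtain ⟨d, r, h⟩ := OO_prefix hn
  exact ⟨n, d, r, by rw [h]; simp⟩

lemma positive (F : Finset (Set Pt)) (hF : ∀ W ∈ F, IsOpen W ∧ Dense W) (f : C(Pt, ℝ))
    (hf : ∀ x ∉ U0, f x = 0) : ∃ x, (∀ W ∈ F, x ∈ OW W) ∧ f x < 1 := by
  classical
  by_contra hcon
  push Not at hcon
  have h1 : Cc f [F.card] := by
    refine main_sep f.continuous F.card [F.card] (by simp) 0 (F.image nodes)
      Finset.card_image_le ?_ ?_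
    · intro N hN
      obtain ⟨W, hW, rfl⟩ := Finset.mem_image.1 hN
      exact DN_nodes (hF W hW).1 (hF W hW).2
    · intro x _ hx
      exact hcon x fun W hW => ⟨F.card, hx (nodes W) (Finset.mem_image_of_mem _ hW)⟩
  obtain ⟨l, _, e, he⟩ := h1 0 one_pos 0
  obtain ⟨x, hx⟩ := Blk_nonempty ([F.card] ++ (2 * l + 1) :: e)
  have hxU : x ∉ U0 := by
    rintro ⟨n, d, r, hr⟩
    obtain ⟨u, hu⟩ := hx
    rw [hr] at hu
    simp only [List.cons_append, List.nil_append, List.cons.injEq] at hu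
    omega
  have := he x hx
  rw [hf x hxU] at this
  exact lt_irrefl _ this

lemma exists_ultra : ∃ u : Ultrafilter Pt, (∀ W : Set Pt, IsOpen W → Dense W → OW W ∈ u) ∧
    ∀ f : C(Pt, ℝ), (∀ x ∉ U0, f x = 0) → {x | f x < 1} ∈ u := by
  classical
  let S : Set (Set Pt) := {B | ∃ (F : Finset (Set Pt)) (f : C(Pt, ℝ)),
    (∀ W ∈ F, IsOpen W ∧ Dense W) ∧ (∀ x ∉ U0, f x = 0) ∧
      B = {x | (∀ W ∈ F, x ∈ OW W) ∧ f x < 1}}
  have hS : ∀ T : Finset (Set Pt), (T : Set (Set Pt)) ⊆ S →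
      ∃ B ∈ S, B ⊆ ⋂₀ (T : Set (Set Pt)) := by
    intro T
    induction T using Finset.induction_on with
    | empty =>
      intro _
      exact ⟨_, ⟨∅, 0, by simp, by simp, rfl⟩, by simp⟩
    | insert A T hA ih =>
      intro hT
      rw [Finset.coe_insert, insert_subset_iff] at hT
      obtain ⟨⟨F1, f1, h1, h1', rfl⟩, hT⟩ := hT
      obtain ⟨B, ⟨F2, f2, h2, h2', rfl⟩, hB⟩ := ih hT
      refine ⟨_, ⟨F1 ∪ F2, f1 ⊔ f2, ?_, ?_, rfl⟩, ?_⟩
      · intro W hW
        rcases Finset.mem_union.1 hW with hW | hW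
        · exact h1 W hW
        · exact h2 W hW
      · intro x hx
        rw [ContinuousMap.sup_apply, h1' x hx, h2' x hx, max_self]
      · rw [Finset.coe_insert, sInter_insert]
        rintro x ⟨hx1, hx2⟩
        rw [ContinuousMap.sup_apply, max_lt_iff] at hx2
        exact ⟨⟨fun W hW => hx1 W (Finset.mem_union_left _ hW), hx2.1⟩,
          hB ⟨fun W hW => hx1 W (Finset.mem_union_right _ hW), hx2.2⟩⟩
  obtain ⟨u, hu⟩ := Ultrafilter.exists_ultrafilter_of_finite_inter_nonempty S (by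
    intro T hT
    obtain ⟨B, ⟨F, f, h1, h2, rfl⟩, hB⟩ := hS T hT
    obtain ⟨x, hx⟩ := positive F h1 f h2
    exact ⟨x, hB hx⟩)
  refine ⟨u, ?_, ?_⟩
  · intro W h1 h2
    have : {x | (∀ V ∈ ({W} : Finset (Set Pt)), x ∈ OW V) ∧ (0 : C(Pt, ℝ)) x < 1} ∈ u :=
      hu ⟨{W}, 0, by simpa using ⟨h1, h2⟩, by simp, rfl⟩
    refine mem_of_superset this ?_
    rintro x ⟨hx, _⟩
    exact hx W (by simp)
  · intro f hf
    have : {x | (∀ V ∈ (∅ : Finset (Set Pt)), x ∈ OW V) ∧ f x < 1} ∈ u :=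
      hu ⟨∅, f, by simp, hf, rfl⟩
    refine mem_of_superset this ?_
    rintro x ⟨_, hx⟩
    exact hx

/-- the filter of the sets whose interior is in the ultrafilter `u` -/
def FF (u : Ultrafilter Pt) : Filter Pt where
  sets := {A | interior A ∈ u}
  univ_sets := by
    change interior univ ∈ u
    rw [interior_univ]
    exact univ_mem
  sets_of_superset := fun hx hxy => mem_of_superset hx (interior_mono hxy)
  inter_sets := fun hx hy => by
    change interior (_ ∩ _) ∈ u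
    rw [interior_inter]
    exact inter_mem hx hy

lemma mem_FF {u : Ultrafilter Pt} {A : Set Pt} : A ∈ FF u ↔ interior A ∈ u := Iff.rfl

lemma dense_union_compl_closure (U : Set Pt) (hU : IsOpen U) :
    IsOpen (U ∪ (closure U)ᶜ) ∧ Dense (U ∪ (closure U)ᶜ) := by
  refine ⟨hU.union isClosed_closure.isOpen_compl, ?_⟩
  intro x
  rw [mem_closure_iff]
  intro V hV hxV
  by_cases h : (V ∩ U).Nonempty
  · obtain ⟨z, hz1, hz2⟩ := h
    exact ⟨z, hz1, Or.inl hz2⟩
  · refine ⟨x, hxV, Or.inr ?_⟩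
    intro hx
    exact h (mem_closure_iff.1 hx V hV hxV)

lemma not_isOpen_singleton (x : Pt) : ¬ IsOpen ({x} : Set Pt) := by
  intro h
  obtain ⟨n, hn⟩ := (isOpen_iff'.1 h x rfl).exists
  obtain ⟨z, hz⟩ := Blk_nonempty (nO x.v x.l n)
  have : z = x := hn.1 hz
  subst this
  have := List.IsPrefix.length_le hz
  simp [nO] at this

end Pool.Agent.H275UF
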