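import Pool.Agent.H275.UF.Space

/-!
# The closed sets inside dense open sets
-/

set_option autoImplicit false

open Set Filter Topology

namespace Pool.Agent.H275UF

/-- the nodes of a dense open set -/
structure DN (W : Set (List ℕ)) : Prop where
  up : ∀ s t, s ∈ W → s <+: t → t ∈ W
  dense : ∀ s, ∃ t, s <+: t ∧ t ∈ W

/-- least code of a node of `W` in the child with number `2 * cd m` of `v` -/
noncomputable def jj (W : Set (List ℕ)) (v : List ℕ) (m : List Al) : ℕ :=
  sInf {k | ∃ p, en p = k ∧ v ++ (2 * cd m) :: p ∈ W}

/-- admissible paths -/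
def Val (W : Set (List ℕ)) (v : List ℕ) : List Al → Prop
  | [] => True
  | x :: m => Val W v m ∧ en x.1 ≤ jj W v m ∧ jj W v m ≤ x.2.1

/-- the nodes of the open sets -/
def OO (W : Set (List ℕ)) : ℕ → List ℕ → Set (List ℕ)
  | 0, _ => ∅
  | n + 1, v => {s | ∃ m p d r, s = v ++ (2 * cd m) :: (p ++ (2 * d) :: r) ∧ Val W v m ∧
      en p ≤ jj W v m ∧ jj W v m < 2 * d ∧
      (v ++ (2 * cd m) :: p ∈ W ∨ s ∈ OO W n (v ++ (2 * cd m) :: p))}

lemma jj_spec {W : Set (List ℕ)} (hW : DN W) (v : List ℕ) (m : List Al) :
    ∃ p, en p = jj W v m ∧ v ++ (2 * cd m) :: p ∈ W := by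
  have hne : {k | ∃ p, en p = k ∧ v ++ (2 * cd m) :: p ∈ W}.Nonempty := by
    obtain ⟨t, ⟨r, hr⟩, ht⟩ := hW.dense (v ++ [2 * cd m])
    refine ⟨en r, r, rfl, ?_⟩
    rw [← hr] at ht
    simpa using ht
  exact Nat.sInf_mem hne

lemma OO_sub {W : Set (List ℕ)} (hW : DN W) (n : ℕ) : ∀ v, OO W n v ⊆ W := by
  induction n with
  | zero => intro v s hs; exact absurd hs (by simp [OO])
  | succ n ih =>
    rintro v s ⟨m, p, d, r, hs, -, -, -, h | h⟩
    · refine hW.up _ _ h ?_
      rw [hs]
      exact ⟨(2 * d) :: r, by simp⟩
    · exact ih _ h

lemma OO_up {W : Set (List ℕ)} (hW : DN W) (n : ℕ) :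
    ∀ v s t, s ∈ OO W n v → s <+: t → t ∈ OO W n v := by
  induction n with
  | zero => intro v s t hs; exact absurd hs (by simp [OO])
  | succ n ih =>
    rintro v s t ⟨m, p, d, r, hs, hm, hp, hd, h⟩ ⟨r', ht⟩
    refine ⟨m, p, d, r ++ r', ?_, hm, hp, hd, ?_⟩
    · rw [← ht, hs]; simp
    · rcases h with h | h
      · exact Or.inl h
      · exact Or.inr (ih _ _ _ h ⟨r', ht⟩)

lemma OO_prefix {W : Set (List ℕ)} {n : ℕ} {v s : List ℕ} (h : s ∈ OO W n v) :
    ∃ d r, s = v ++ (2 * d) :: r := by
  cases n with
  | zero => exact absurd h (by simp [OO])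
  | succ n =>
    obtain ⟨m, p, d, r, hs, -⟩ := h
    exact ⟨cd m, _, hs⟩

lemma conflict {p : List ℕ} : ∀ {q e r : List ℕ} {a b : ℕ}, p ++ a :: e <+: q ++ b :: r →
    a ≠ b → a ∉ q → b ∉ p → False := by
  induction p with
  | nil =>
    intro q e r a b h hab h1 h2
    cases q with
    | nil =>
      obtain ⟨u, hu⟩ := h
      simp only [List.nil_append, List.cons_append, List.cons.injEq] at hu
      exact hab hu.1
    | cons c q' =>
      obtain ⟨u, hu⟩ := h
      simp only [List.nil_append, List.cons_append, List.cons.injEq] at hu
      exact h1 (by simp [hu.1])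
  | cons c p' ih =>
    intro q e r a b h hab h1 h2
    cases q with
    | nil =>
      obtain ⟨u, hu⟩ := h
      simp only [List.nil_append, List.cons_append, List.cons.injEq] at hu
      exact h2 (by simp [hu.1])
    | cons c' q' =>
      obtain ⟨u, hu⟩ := h
      simp only [List.cons_append, List.cons.injEq] at hu
      exact ih ⟨u, by simpa using hu.2⟩ hab (fun h => h1 (List.mem_cons_of_mem _ h))
        (fun h => h2 (List.mem_cons_of_mem _ h))

lemma Val_pre_mono {W : Set (List ℕ)} {v : List ℕ} {l : ℕ → Al} {k k' : ℕ} (hk : k ≤ k')
    (h : Val W v (pre l k')) : Val W v (pre l k) := by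
  induction k' with
  | zero => have : k = 0 := by omega
            subst this; exact h
  | succ k' ih =>
    rcases Nat.le_succ_iff.1 hk with hk | hk
    · exact ih hk h.1
    · subst hk; exact h

/-- the closures of the sets `OO` are contained in `W` -/
lemma closed_main {W : Set (List ℕ)} (hW : DN W) (n : ℕ) : ∀ (v : List ℕ) (y : Pt), y.v ∉ W →
    ∀ᶠ k in atTop, ∀ z, (z ∈ Blk (nO y.v y.l k) ∨ z ∈ Blk (nS y.v y.l k)) → z.v ∉ OO W n v := by
  induction n with
  | zero => intro v y _; exact Eventually.of_forall fun k z _ => by simp [OO]
  | succ n ih =>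
    intro v y hy
    by_cases h : v <+: y.v
    · obtain ⟨t, ht⟩ := h
      cases t with
      | nil =>
        have hv : y.v = v := by simpa using ht.symm
        have odd : ∀ k z, z ∈ Blk (nO y.v y.l k) → z.v ∉ OO W (n + 1) v := by
          rintro k z hz ⟨m, p, d, r, hs, -⟩
          have h1 : v ++ (2 * cd m) :: (p ++ (2 * d) :: r) <+: z.v := by rw [hs]
          rw [hv] at hz
          have := append_cons_prefix_inj hz h1
          omega
        by_cases hval : ∀ k, Val W v (pre y.l k)
        · refine Eventually.of_forall fun k z hz => ?_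
          rcases hz with hz | hz
          · exact odd k z hz
          · rintro ⟨m, p, d, r, hs, hm, hp, hd, -⟩
            have h1 : v ++ (2 * cd m) :: (p ++ (2 * d) :: r) <+: z.v := by rw [hs]
            rw [hv] at hz
            have hc := append_cons_prefix_inj hz h1
            have hmm : pre y.l k = m := cd_inj (by omega)
            subst hmm
            have hz2 : (y.l k).1 ++ (2 * (y.l k).2.1 + 1) :: (y.l k).2.2 <+:
                p ++ (2 * d) :: r := by
              have hz3 : nS v y.l k <+: v ++ (2 * cd (pre y.l k)) :: (p ++ (2 * d) :: r) := by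
                rw [← hs]; exact hz
              obtain ⟨u, hu⟩ := hz3
              refine ⟨u, ?_⟩
              simp only [nS, List.append_assoc, List.cons_append] at hu
              have := List.append_cancel_left hu
              simp only [List.cons.injEq, true_and] at this
              simpa using this
            have hk1 : Val W v (pre y.l (k + 1)) := hval (k + 1)
            obtain ⟨-, hk2, hk3⟩ := hk1
            refine conflict hz2 (by omega) ?_ ?_
            · intro hmem
              have := mem_le_en hmem
              omega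
            · intro hmem
              have := mem_le_en hmem
              omega
        · push Not at hval
          obtain ⟨k0, hk0⟩ := hval
          filter_upwards [eventually_ge_atTop k0] with k hk z hz
          rcases hz with hz | hz
          · exact odd k z hz
          · rintro ⟨m, p, d, r, hs, hm, -⟩
            have h1 : v ++ (2 * cd m) :: (p ++ (2 * d) :: r) <+: z.v := by rw [hs]
            rw [hv] at hz
            have hc := append_cons_prefix_inj hz h1
            have hmm : pre y.l k = m := cd_inj (by omega)
            subst hmm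
            exact hk0 (Val_pre_mono hk hm)
      | cons d w' =>
        by_cases hd : ∃ m, d = 2 * cd m
        · obtain ⟨m, hm⟩ := hd
          have hfin : {p : List ℕ | en p ≤ jj W v m}.Finite := by
            have := (Set.finite_Iic (jj W v m)).preimage
              (f := en) (fun a _ b _ hab => en_inj hab)
            exact this
          have h1 : ∀ᶠ k in atTop, ∀ p ∈ {p : List ℕ | en p ≤ jj W v m},
              ((v ++ (2 * cd m) :: p ∈ W → Blk (nO y.v y.l k) ⊆ (Blk (v ++ (2 * cd m) :: p))ᶜ ∧
                Blk (nS y.v y.l k) ⊆ (Blk (v ++ (2 * cd m) :: p))ᶜ)) ∧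
              (∀ z, (z ∈ Blk (nO y.v y.l k) ∨ z ∈ Blk (nS y.v y.l k)) →
                z.v ∉ OO W n (v ++ (2 * cd m) :: p)) := by
            rw [eventually_all_finite hfin]
            intro p _
            refine Eventually.and ?_ (ih _ y hy)
            by_cases hp : v ++ (2 * cd m) :: p ∈ W
            · have hnp : ¬ (v ++ (2 * cd m) :: p <+: y.v) := fun h => hy (hW.up _ _ hp h)
              filter_upwards [ev_disj y _ hnp] with k hk _
              exact hk
            · exact Eventually.of_forall fun k h => absurd h hp
          filter_upwards [h1] with k hk z hz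
          rintro ⟨m', p, d', r, hs, hm', hp, hd', hor⟩
          have hyz : y.v <+: z.v := by
            rcases hz with hz | hz
            · exact (prefix_nO _ _ _).trans hz
            · exact (prefix_nS _ _ _).trans hz
          have e1 : v ++ d :: w' <+: z.v := by rw [ht]; exact hyz
          have e2 : v ++ (2 * cd m') :: (p ++ (2 * d') :: r) <+: z.v := by rw [hs]
          have e3 := append_cons_prefix_inj e1 e2
          have hmm : m' = m := cd_inj (by omega)
          subst hmm
          have := hk p hp
          rcases hor with hor | hor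
          · have hzB : z ∈ Blk (v ++ (2 * cd m') :: p) := by
              change v ++ (2 * cd m') :: p <+: z.v
              rw [hs]
              exact ⟨(2 * d') :: r, by simp⟩
            rcases hz with hz | hz
            · exact (this.1 hor).1 hz hzB
            · exact (this.1 hor).2 hz hzB
          · exact this.2 z hz hor
        · refine Eventually.of_forall fun k z hz => ?_
          rintro ⟨m', p, d', r, hs, -⟩
          have hyz : y.v <+: z.v := by
            rcases hz with hz | hz
            · exact (prefix_nO _ _ _).trans hz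
            · exact (prefix_nS _ _ _).trans hz
          have e1 : v ++ d :: w' <+: z.v := by rw [ht]; exact hyz
          have e2 : v ++ (2 * cd m') :: (p ++ (2 * d') :: r) <+: z.v := by rw [hs]
          exact hd ⟨m', append_cons_prefix_inj e1 e2⟩
    · filter_upwards [ev_disj y v h] with k hk z hz hzO
      obtain ⟨d, r, hr⟩ := OO_prefix hzO
      have hzv : z ∈ Blk v := by
        change v <+: z.v
        rw [hr]
        exact List.prefix_append _ _
      rcases hz with hz | hz
      · exact hk.1 hz hzv
      · exact hk.2 hz hzv

end Pool.Agent.H275UF
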