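import Pool.Agent.H275.UF.Node

/-!
# Finite intersections are not completely separated from the odd blocks
-/

set_option autoImplicit false

open Set Filter Topology

namespace Pool.Agent.H275UF

/-- `f` is close to `1` (or larger) on arbitrarily late odd blocks of `v` -/
def Cc (f : Pt → ℝ) (v : List ℕ) : Prop :=
  ∀ c < (1 : ℝ), ∀ L : ℕ, ∃ l ≥ L, ∃ e, ∀ x ∈ Blk (v ++ (2 * l + 1) :: e), c < f x

lemma final_step {f : Pt → ℝ} (hf : Continuous f) {v : List ℕ} (hv : v ≠ []) (l : ℕ → Al)
    (c1 : ℝ) (h : ∀ᶠ n in atTop, ∀ x ∈ Blk (nS v l n), c1 ≤ f x) :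
    ∀ c < c1, ∀ L : ℕ, ∃ l' ≥ L, ∃ e, ∀ x ∈ Blk (v ++ (2 * l' + 1) :: e), c < f x := by
  intro c hc L
  let k : Pt := ⟨v, hv, l⟩
  have hk : c1 ≤ f k := by
    by_contra hcon
    push Not at hcon
    have hU : IsOpen {x | f x < c1} := isOpen_lt hf continuous_const
    have h2 := isOpen_iff'.1 hU k hcon
    obtain ⟨n, hn1, hn2⟩ := (h.and h2).exists
    obtain ⟨z, hz⟩ := Blk_nonempty (nS v l n)
    have h3 : f z < c1 := hn2.2 hz
    exact absurd (hn1 z hz) (not_le.2 h3)
  have hV : IsOpen {x | c < f x} := isOpen_lt continuous_const hf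
  have h4 := isOpen_iff'.1 hV k (lt_of_lt_of_le hc hk)
  obtain ⟨n, hn1, hn2⟩ := (h4.and (eventually_ge_atTop L)).exists
  exact ⟨cd (pre l n), hn2.trans (le_cd_pre l n), [], fun x hx => hn1.1 hx⟩

lemma base_sep {f : Pt → ℝ} (hf : Continuous f) {v : List ℕ} (hv : v ≠ []) (D : ℕ)
    (h : ∀ x : Pt, (∃ d r, x.v = v ++ (2 * d) :: r ∧ D < 2 * d) → 1 ≤ f x) : Cc f v := by
  intro c hc L
  refine final_step hf hv (fun _ => ([], 0, [])) 1 ?_ c hc L
  filter_upwards [eventually_gt_atTop D] with n hn x hx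
  obtain ⟨r, hr⟩ := hx
  have := le_cd_pre (fun _ => (([], 0, []) : Al)) n
  refine h x ⟨cd (pre (fun _ => (([], 0, []) : Al)) n), (2 * 0 + 1) :: r, ?_, by omega⟩
  rw [← hr]
  simp [nS]

lemma main_sep {f : Pt → ℝ} (hf : Continuous f) (n : ℕ) : ∀ (v : List ℕ), v ≠ [] → ∀ (D : ℕ)
    (F : Finset (Set (List ℕ))), F.card ≤ n → (∀ W ∈ F, DN W) →
    (∀ x : Pt, (∃ d r, x.v = v ++ (2 * d) :: r ∧ D < 2 * d) → (∀ W ∈ F, x.v ∈ OO W n v) →
      1 ≤ f x) → Cc f v := by
  classical
  induction n with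
  | zero =>
    intro v hv D F hF _ h
    have : F = ∅ := Finset.card_eq_zero.1 (by omega)
    subst this
    exact base_sep hf hv D fun x hx => h x hx (by simp)
  | succ n ih =>
    intro v hv D F hF hDN h
    rcases F.eq_empty_or_nonempty with rfl | hne
    · exact base_sep hf hv D fun x hx => h x hx (by simp)
    intro c hc L
    set c1 : ℝ := (c + 1) / 2 with hc1
    have step : ∀ m : List Al, (∀ W ∈ F, Val W v m) → ∃ x : Al,
        (∀ W ∈ F, en x.1 ≤ jj W v m ∧ jj W v m ≤ x.2.1) ∧
        (D < 2 * cd m → ∀ z ∈ Blk (v ++ (2 * cd m) :: (x.1 ++ (2 * x.2.1 + 1) :: x.2.2)),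
          c1 ≤ f z) := by
      intro m hm
      obtain ⟨W1, hW1, hmin⟩ := Finset.exists_min_image F (fun W => jj W v m) hne
      obtain ⟨p1, hp1, hq⟩ := jj_spec (hDN W1 hW1) v m
      set D' : ℕ := F.sup (fun W => jj W v m) with hD'
      have hle : ∀ W ∈ F, jj W v m ≤ D' := fun W hW => Finset.le_sup (f := fun W => jj W v m) hW
      by_cases hD : D < 2 * cd m
      · have hC : Cc f (v ++ (2 * cd m) :: p1) := by
          refine ih (v ++ (2 * cd m) :: p1) (by simp) D' (F.erase W1) ?_ ?_ ?_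
          · rw [Finset.card_erase_of_mem hW1]; omega
          · intro W hW; exact hDN W (Finset.mem_of_mem_erase hW)
          · rintro x ⟨d, r, hx, hd⟩ hxW
            have hxv : x.v = v ++ (2 * cd m) :: (p1 ++ (2 * d) :: r) := by
              rw [hx]; simp
            refine h x ⟨cd m, _, hxv, hD⟩ ?_
            intro W hW
            refine ⟨m, p1, d, r, hxv, hm W hW, ?_, ?_, ?_⟩
            · rw [hp1]; exact hmin W hW
            · exact lt_of_le_of_lt (hle W hW) hd
            · by_cases hWW : W = W1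
              · subst hWW; exact Or.inl hq
              · exact Or.inr (hxW W (Finset.mem_erase.2 ⟨hWW, hW⟩))
        obtain ⟨l, hl, e, he⟩ := hC c1 (by rw [hc1]; linarith) D'
        refine ⟨(p1, l, e), ?_, ?_⟩
        · intro W hW
          refine ⟨?_, (hle W hW).trans hl⟩
          change en p1 ≤ _
          rw [hp1]; exact hmin W hW
        · intro _ z hz
          refine (he z ?_).le
          simpa using hz
      · refine ⟨(p1, D', []), ?_, fun h => absurd h hD⟩
        intro W hW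
        refine ⟨?_, hle W hW⟩
        change en p1 ≤ _
        rw [hp1]; exact hmin W hW
    choose g hg1 hg2 using step
    let R : ℕ → {m : List Al // ∀ W ∈ F, Val W v m} := fun k =>
      Nat.rec ⟨[], fun _ _ => trivial⟩
        (fun _ m => ⟨g m.1 m.2 :: m.1, fun W hW => ⟨m.2 W hW, hg1 m.1 m.2 W hW⟩⟩) k
    let l : ℕ → Al := fun k => g (R k).1 (R k).2
    have hpre : ∀ k, pre l k = (R k).1 := by
      intro k
      induction k with
      | zero => rfl
      | succ k ihk =>
        change l k :: pre l k = g (R k).1 (R k).2 :: (R k).1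
        rw [ihk]
    refine final_step hf hv l c1 ?_ c (by rw [hc1]; linarith) L
    filter_upwards [eventually_gt_atTop D] with k hk z hz
    have hck := le_cd_pre l k
    rw [hpre k] at hck
    refine hg2 (R k).1 (R k).2 (by omega) z ?_
    have : nS v l k = v ++ (2 * cd (R k).1) :: ((g (R k).1 (R k).2).1 ++
        (2 * (g (R k).1 (R k).2).2.1 + 1) :: (g (R k).1 (R k).2).2.2) := by
      unfold nS
      rw [hpre k]
    rw [← this]
    exact hz

end Pool.Agent.H275UF
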