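import Mathlib

/-!
# The space of the construction: a tree of blocks with points of Mrowka type
-/

set_option autoImplicit false

open Set Filter Topology

namespace Pool.Agent.H275UF

/-- the alphabet of the types of the points -/
abbrev Al := List ℕ × ℕ × List ℕ

/-- code of a finite sequence of letters -/
def cd (m : List Al) : ℕ := Encodable.encode m

/-- code of a finite sequence of natural numbers -/
def en (p : List ℕ) : ℕ := Encodable.encode p

lemma cd_inj {m m' : List Al} (h : cd m = cd m') : m = m' := Encodable.encode_injective h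

lemma length_le_cd (m : List Al) : m.length ≤ cd m := Encodable.length_le_encode m

lemma mem_le_en {x : ℕ} {p : List ℕ} (h : x ∈ p) : x ≤ en p := by
  unfold en
  induction p with
  | nil => simp at h
  | cons a l ih =>
    rw [Encodable.encode_list_cons]
    rcases List.mem_cons.1 h with h | h
    · subst h
      exact (Nat.left_le_pair _ _).trans (Nat.le_succ _)
    · exact (ih h).trans ((Nat.right_le_pair _ _).trans (Nat.le_succ _))

lemma en_inj {p q : List ℕ} (h : en p = en q) : p = q := Encodable.encode_injective h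

/-- initial segments of a sequence, in reversed order -/
def pre (l : ℕ → Al) : ℕ → List Al
  | 0 => []
  | n + 1 => l n :: pre l n

@[simp] lemma length_pre (l : ℕ → Al) (n : ℕ) : (pre l n).length = n := by
  induction n with
  | zero => rfl
  | succ n ih => simp [pre, ih]

lemma le_cd_pre (l : ℕ → Al) (n : ℕ) : n ≤ cd (pre l n) := by
  have := length_le_cd (pre l n)
  simpa using this

lemma pre_eq {l l' : ℕ → Al} {n n' : ℕ} (h : pre l n = pre l' n') :
    n = n' ∧ ∀ i < n, l i = l' i := by
  have hn : n = n' := by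
    have := congrArg List.length h
    simpa using this
  subst hn
  refine ⟨rfl, ?_⟩
  induction n with
  | zero => intro i hi; omega
  | succ n ih =>
    simp only [pre, List.cons.injEq] at h
    intro i hi
    rcases Nat.lt_succ_iff_lt_or_eq.1 hi with hi | hi
    · exact ih h.2 i hi
    · subst hi; exact h.1

/-- the points of the space -/
structure Pt where
  /-- the node at which the point lives -/
  v : List ℕ
  hv : v ≠ []
  /-- the type of the point -/
  l : ℕ → Al

/-- the block of a node -/
def Blk (s : List ℕ) : Set Pt := {x | s <+: x.v}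

/-- the odd nodes which converge to the point `(v, l)` -/
def nO (v : List ℕ) (l : ℕ → Al) (n : ℕ) : List ℕ := v ++ (2 * cd (pre l n) + 1) :: []

/-- the even nodes which converge to the point `(v, l)` -/
def nS (v : List ℕ) (l : ℕ → Al) (n : ℕ) : List ℕ :=
  v ++ (2 * cd (pre l n)) :: ((l n).1 ++ (2 * (l n).2.1 + 1) :: (l n).2.2)

instance : TopologicalSpace Pt where
  IsOpen U := ∀ x ∈ U, ∀ᶠ n in atTop, Blk (nO x.v x.l n) ⊆ U ∧ Blk (nS x.v x.l n) ⊆ U
  isOpen_univ := by
    intro x _
    exact Eventually.of_forall fun n => ⟨subset_univ _, subset_univ _⟩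
  isOpen_inter := by
    intro U V hU hV x hx
    filter_upwards [hU x hx.1, hV x hx.2] with n h1 h2
    exact ⟨subset_inter h1.1 h2.1, subset_inter h1.2 h2.2⟩
  isOpen_sUnion := by
    intro S hS x hx
    obtain ⟨U, hU, hxU⟩ := hx
    filter_upwards [hS U hU x hxU] with n h
    exact ⟨h.1.trans (subset_sUnion_of_mem hU), h.2.trans (subset_sUnion_of_mem hU)⟩

lemma isOpen_iff' {U : Set Pt} : IsOpen U ↔
    ∀ x ∈ U, ∀ᶠ n in atTop, Blk (nO x.v x.l n) ⊆ U ∧ Blk (nS x.v x.l n) ⊆ U := Iff.rfl

lemma mem_of_cmp {w s u t : List ℕ} {d : ℕ} (h1 : s <+: u) (h2 : w ++ d :: t <+: u)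
    (h3 : ¬ s <+: w) : d ∈ s := by
  induction w generalizing s u with
  | nil =>
    cases s with
    | nil => exact absurd (List.nil_prefix) h3
    | cons a s' =>
      obtain ⟨r1, rfl⟩ := h1
      obtain ⟨r2, h2⟩ := h2
      simp only [List.nil_append, List.cons_append, List.cons.injEq] at h2
      simp [h2.1]
  | cons b w' ih =>
    cases s with
    | nil => exact absurd (List.nil_prefix) h3
    | cons a s' =>
      obtain ⟨r1, rfl⟩ := h1
      obtain ⟨r2, h2⟩ := h2
      simp only [List.cons_append, List.cons.injEq] at h2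
      obtain ⟨hab, h2⟩ := h2
      subst hab
      have h3' : ¬ s' <+: w' := fun h => h3 ((List.cons_prefix_cons).2 ⟨rfl, h⟩)
      exact List.mem_cons_of_mem _ (ih (List.prefix_append s' r1) ⟨r2, by simpa using h2⟩ h3')

lemma Blk_mono {s t : List ℕ} (h : s <+: t) : Blk t ⊆ Blk s := fun _ hx => h.trans hx

lemma Blk_nonempty (s : List ℕ) : (Blk s).Nonempty :=
  ⟨⟨s ++ [0], by simp, fun _ => ([], 0, [])⟩, List.prefix_append _ _⟩

lemma prefix_nO (v : List ℕ) (l : ℕ → Al) (n : ℕ) : v <+: nO v l n := List.prefix_append _ _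

lemma prefix_nS (v : List ℕ) (l : ℕ → Al) (n : ℕ) : v <+: nS v l n := List.prefix_append _ _

lemma isOpen_Blk (s : List ℕ) : IsOpen (Blk s) := by
  rw [isOpen_iff']
  intro x hx
  exact Eventually.of_forall fun n =>
    ⟨Blk_mono (List.IsPrefix.trans hx (prefix_nO _ _ _)),
      Blk_mono (List.IsPrefix.trans hx (prefix_nS _ _ _))⟩

lemma ev_disj (y : Pt) (s : List ℕ) (h : ¬ s <+: y.v) :
    ∀ᶠ n in atTop, Blk (nO y.v y.l n) ⊆ (Blk s)ᶜ ∧ Blk (nS y.v y.l n) ⊆ (Blk s)ᶜ := by
  filter_upwards [eventually_gt_atTop (en s)] with n hn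
  have hc := le_cd_pre y.l n
  constructor
  · intro z hz hzs
    have := mem_le_en (mem_of_cmp hzs hz h)
    omega
  · intro z hz hzs
    have := mem_le_en (mem_of_cmp hzs hz h)
    omega

lemma isClosed_Blk (s : List ℕ) : IsClosed (Blk s) := by
  rw [← isOpen_compl_iff, isOpen_iff']
  intro y hy
  exact ev_disj y s hy

/-- basic neighbourhoods -/
def Nb (x : Pt) (M : ℕ) : Set Pt :=
  {z | z = x ∨ ∃ n, M ≤ n ∧ (z ∈ Blk (nO x.v x.l n) ∨ z ∈ Blk (nS x.v x.l n))}

lemma isOpen_Nb (x : Pt) (M : ℕ) : IsOpen (Nb x M) := by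
  rw [isOpen_iff']
  intro y hy
  rcases hy with rfl | ⟨n, hn, hy | hy⟩
  · filter_upwards [eventually_ge_atTop M] with n hn
    exact ⟨fun z hz => Or.inr ⟨n, hn, Or.inl hz⟩, fun z hz => Or.inr ⟨n, hn, Or.inr hz⟩⟩
  · have := isOpen_iff'.1 (isOpen_Blk (nO x.v x.l n)) y hy
    filter_upwards [this] with k hk
    exact ⟨fun z hz => Or.inr ⟨n, hn, Or.inl (hk.1 hz)⟩,
      fun z hz => Or.inr ⟨n, hn, Or.inl (hk.2 hz)⟩⟩
  · have := isOpen_iff'.1 (isOpen_Blk (nS x.v x.l n)) y hy
    filter_upwards [this] with k hk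
    exact ⟨fun z hz => Or.inr ⟨n, hn, Or.inr (hk.1 hz)⟩,
      fun z hz => Or.inr ⟨n, hn, Or.inr (hk.2 hz)⟩⟩

lemma append_cons_prefix_inj {v r t u : List ℕ} {a b : ℕ} (h1 : v ++ a :: r <+: u)
    (h2 : v ++ b :: t <+: u) : a = b := by
  obtain ⟨r1, rfl⟩ := h1
  obtain ⟨r2, h2⟩ := h2
  rw [List.append_assoc, List.append_assoc] at h2
  have := List.append_cancel_left h2
  simp only [List.cons_append, List.cons.injEq] at this
  exact this.1.symm

lemma isClosed_Nb (x : Pt) (M : ℕ) : IsClosed (Nb x M) := by
  rw [← isOpen_compl_iff, isOpen_iff']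
  intro y hy
  have hyx : y ≠ x := fun h => hy (Or.inl h)
  by_cases hvy : x.v <+: y.v
  · obtain ⟨t, ht⟩ := hvy
    cases t with
    | nil =>
      -- same node
      have hv : x.v = y.v := by simpa using ht
      have hl : x.l ≠ y.l := by
        intro h
        apply hyx
        cases x; cases y
        simp_all
      obtain ⟨i, hi⟩ : ∃ i, x.l i ≠ y.l i := by
        by_contra hcon
        push Not at hcon
        exact hl (funext hcon)
      filter_upwards [eventually_gt_atTop i] with n hn
      have key : ∀ n', pre y.l n ≠ pre x.l n' := by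
        intro n' h
        exact hi ((pre_eq h).2 i hn).symm
      constructor
      · rintro z hz (rfl | ⟨n', hn', hz' | hz'⟩)
        · have := List.IsPrefix.length_le hz
          rw [← hv] at this
          simp [nO] at this
        · have h1 := append_cons_prefix_inj (by rw [← hv] at hz; exact hz) hz'
          exact key n' (cd_inj (by omega))
        · have h1 := append_cons_prefix_inj (by rw [← hv] at hz; exact hz) hz'
          omega
      · rintro z hz (rfl | ⟨n', hn', hz' | hz'⟩)
        · have := List.IsPrefix.length_le hz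
          rw [← hv] at this
          simp [nS] at this
        · have h1 := append_cons_prefix_inj (by rw [← hv] at hz; exact hz) hz'
          omega
        · have h1 := append_cons_prefix_inj (by rw [← hv] at hz; exact hz) hz'
          exact key n' (cd_inj (by omega))
    | cons d w' =>
      have hO : ∀ n ≥ M, ¬ nO x.v x.l n <+: y.v := fun n hn h => hy (Or.inr ⟨n, hn, Or.inl h⟩)
      have hS : ∀ n ≥ M, ¬ nS x.v x.l n <+: y.v := fun n hn h => hy (Or.inr ⟨n, hn, Or.inr h⟩)
      have h1 : ∀ᶠ k in atTop, ∀ n ∈ Finset.Icc M d,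
          (Blk (nO y.v y.l k) ⊆ (Blk (nO x.v x.l n))ᶜ ∧
            Blk (nS y.v y.l k) ⊆ (Blk (nO x.v x.l n))ᶜ) ∧
          (Blk (nO y.v y.l k) ⊆ (Blk (nS x.v x.l n))ᶜ ∧
            Blk (nS y.v y.l k) ⊆ (Blk (nS x.v x.l n))ᶜ) := by
        rw [eventually_all_finset]
        intro n hn
        have hn' := (Finset.mem_Icc.1 hn).1
        exact (ev_disj y _ (hO n hn')).and (ev_disj y _ (hS n hn'))
      filter_upwards [h1] with k hk
      have main : ∀ z, y.v <+: z.v → z ≠ x ∧ ∀ n, M ≤ n →
          (z ∈ Blk (nO x.v x.l n) ∨ z ∈ Blk (nS x.v x.l n)) → n ∈ Finset.Icc M d := by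
        intro z hz
        constructor
        · rintro rfl
          have := List.IsPrefix.length_le hz
          rw [← ht] at this
          simp at this
        · intro n hn hzn
          have hd : x.v ++ d :: w' <+: z.v := by rw [ht]; exact hz
          have hc := le_cd_pre x.l n
          rcases hzn with hzn | hzn
          · have := append_cons_prefix_inj hd hzn
            exact Finset.mem_Icc.2 ⟨hn, by omega⟩
          · have := append_cons_prefix_inj hd hzn
            exact Finset.mem_Icc.2 ⟨hn, by omega⟩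
      constructor
      · intro z hz hz'
        obtain ⟨m1, m2⟩ := main z ((prefix_nO _ _ _).trans hz)
        rcases hz' with h | ⟨n, hn, hzn⟩
        · exact m1 h
        · have := hk n (m2 n hn hzn)
          rcases hzn with hzn | hzn
          · exact this.1.1 hz hzn
          · exact this.2.1 hz hzn
      · intro z hz hz'
        obtain ⟨m1, m2⟩ := main z ((prefix_nS _ _ _).trans hz)
        rcases hz' with h | ⟨n, hn, hzn⟩
        · exact m1 h
        · have := hk n (m2 n hn hzn)
          rcases hzn with hzn | hzn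
          · exact this.1.2 hz hzn
          · exact this.2.2 hz hzn
  · filter_upwards [ev_disj y x.v hvy] with n hn
    have hsub : Nb x M ⊆ Blk x.v := by
      rintro z (rfl | ⟨n, _, hz | hz⟩)
      · exact List.prefix_rfl
      · exact (prefix_nO _ _ _).trans hz
      · exact (prefix_nS _ _ _).trans hz
    exact ⟨fun z hz hz' => hn.1 hz (hsub hz'), fun z hz hz' => hn.2 hz (hsub hz')⟩

lemma self_mem_Nb (x : Pt) (M : ℕ) : x ∈ Nb x M := Or.inl rfl

lemma exists_Nb_subset {x : Pt} {U : Set Pt} (hU : IsOpen U) (hx : x ∈ U) :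
    ∃ M, Nb x M ⊆ U := by
  obtain ⟨M, hM⟩ := eventually_atTop.1 (isOpen_iff'.1 hU x hx)
  refine ⟨M, ?_⟩
  rintro z (rfl | ⟨n, hn, hz | hz⟩)
  · exact hx
  · exact (hM n hn).1 hz
  · exact (hM n hn).2 hz

lemma basis_clopen : TopologicalSpace.IsTopologicalBasis {s : Set Pt | IsClopen s} := by
  refine TopologicalSpace.isTopologicalBasis_of_isOpen_of_nhds (fun u hu => hu.2) ?_
  intro x U hx hU
  obtain ⟨M, hM⟩ := exists_Nb_subset hU hx
  exact ⟨Nb x M, ⟨isClosed_Nb x M, isOpen_Nb x M⟩, self_mem_Nb x M, hM⟩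

instance : T0Space Pt := by
  rw [t0Space_iff_exists_isOpen_xor_mem]
  intro x y hxy
  by_cases h1 : x.v <+: y.v
  · by_cases h2 : y.v <+: x.v
    · have hv : x.v = y.v := h1.eq_of_length (le_antisymm h1.length_le h2.length_le)
      refine ⟨Nb x 0, isOpen_Nb x 0, Or.inl ⟨self_mem_Nb x 0, ?_⟩⟩
      rintro (h | ⟨n, _, h | h⟩)
      · exact hxy h.symm
      · have := List.IsPrefix.length_le h
        rw [← hv] at this
        simp [nO] at this
      · have := List.IsPrefix.length_le h
        rw [← hv] at this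
        simp [nS] at this
    · exact ⟨Blk y.v, isOpen_Blk _, Or.inr ⟨List.prefix_rfl, h2⟩⟩
  · exact ⟨Blk x.v, isOpen_Blk _, Or.inl ⟨List.prefix_rfl, h1⟩⟩

instance : CompletelyRegularSpace Pt :=
  CompletelyRegularSpace.of_isTopologicalBasis_clopens basis_clopen

instance : T35Space Pt where

end Pool.Agent.H275UF
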